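import Pool.Agent.NA.Stmts

set_option autoImplicit false

open Finset Filter Topology

noncomputable section

namespace Pool.Agent.NA.H33

open Pool.Agent.BC

theorem alc (sgp : SgpStmt) : AlcStmt := by
  intro X _ _ NN δ ε ζ ρ u κ s v Em b f E ηs hδ hζ hηs hE hF hB l
  by_contra hcon
  rw [not_le] at hcon
  obtain ⟨hmono, hmem, hnor, hsm, -⟩ := hF
  have hix : ∀ m, ix s (2 ^ κ) m l < 2 ^ s m := fun m => Nat.mod_lt _ (by positivity)
  refine hB ⟨κ, fun m => v m (ix s (2 ^ κ) m l), ?_, ?_, ?_⟩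
  · intro r hr
    exact ⟨(hmem r hr _ (hix r)).1, (hmem r hr _ (hix r)).2.1⟩
  · intro r hr e he a
    have heE : e ∈ Em r := by
      have hle : E ⊔ Submodule.span ℝ
          ((fun q => v q (ix s (2 ^ κ) q l) - u) '' Set.Iio r) ≤ Em r := by
        refine sup_le ?_ ?_
        · rw [← hE]
          exact hmono (Nat.zero_le r)
        · rw [Submodule.span_le]
          rintro _ ⟨q, hq, rfl⟩
          have hq' : q < r := hq
          exact hmono (Nat.succ_le_of_lt hq') (hmem q (hq'.trans hr) _ (hix q)).2.2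
      exact hle he
    have h1 := (hηs r hr).1
    have hmin : 0 < min (ηs r) 1 := lt_min h1 one_pos
    have key := sgp X (Em r) (b r) (f r) ζ δ (min (ηs r) 1) (v r (ix s (2 ^ κ) r l) - u) hζ hδ hmin
      (min_le_right _ _) (hηs r hr).2 (hnor r hr.le)
      (fun j => hsm r hr.le j r le_rfl hr _ (hix r)) (hmem r hr _ (hix r)).2.1 e heE a
    refine key.trans ?_
    refine mul_le_mul_of_nonneg_right ?_ (norm_nonneg _)
    have := min_le_left (ηs r) 1
    linarith
  · have hc : ((((2 ^ κ : ℕ) : ℝ))⁻¹) = ((2 : ℝ) ^ κ)⁻¹ := by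
      rw [Nat.cast_pow, Nat.cast_ofNat]
    rw [hc] at hcon
    exact hcon.le

end Pool.Agent.NA.H33
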