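import Pool.Agent.NA.Stmts

set_option autoImplicit false

open Finset Filter Topology

noncomputable section

namespace Pool.Agent.NA.H33

open Pool.Agent.BC

section

variable {X : Type} [NormedAddCommGroup X] [NormedSpace ℝ X]

/-- a closed set which is closed under midpoints is convex -/
theorem convex_of_mid (K : Set X) (hK : IsClosed K)
    (hm : ∀ x ∈ K, ∀ y ∈ K, (1 / 2 : ℝ) • (x + y) ∈ K) : Convex ℝ K := by
  rw [convex_iff_forall_pos]
  intro x hx y hy a b ha hb hab
  let T : Set ℝ := {t | x + t • (y - x) ∈ K}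
  have hT : IsClosed T :=
    hK.preimage (by fun_prop : Continuous fun t : ℝ => x + t • (y - x))
  have h0 : (0 : ℝ) ∈ T := by
    change x + (0 : ℝ) • (y - x) ∈ K
    rw [zero_smul, add_zero]
    exact hx
  have h1 : (1 : ℝ) ∈ T := by
    change x + (1 : ℝ) • (y - x) ∈ K
    rw [one_smul, add_sub_cancel]
    exact hy
  have hmT : ∀ s ∈ T, ∀ t ∈ T, (s + t) / 2 ∈ T := by
    intro s hs t ht
    have h := hm _ hs _ ht
    have e : x + ((s + t) / 2) • (y - x) =
        (1 / 2 : ℝ) • ((x + s • (y - x)) + (x + t • (y - x))) := by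
      module
    change x + ((s + t) / 2) • (y - x) ∈ K
    rw [e]
    exact h
  have key : ∀ n : ℕ, ∀ t : ℝ, 0 ≤ t → t ≤ 1 → ∃ t' ∈ T, |t - t'| ≤ (1 / 2 : ℝ) ^ n := by
    intro n
    induction n with
    | zero =>
      intro t ht0 ht1
      refine ⟨0, h0, ?_⟩
      rw [sub_zero, abs_of_nonneg ht0, pow_zero]
      exact ht1
    | succ n ih =>
      intro t ht0 ht1
      rcases le_total t (1 / 2) with h | h
      · obtain ⟨t', ht', h'⟩ := ih (2 * t) (by linarith) (by linarith)
        refine ⟨(0 + t') / 2, hmT 0 h0 t' ht', ?_⟩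
        rw [pow_succ]
        have e : t - (0 + t') / 2 = (2 * t - t') / 2 := by ring
        rw [e, abs_div, abs_of_pos (by norm_num : (0 : ℝ) < 2)]
        linarith
      · obtain ⟨t', ht', h'⟩ := ih (2 * t - 1) (by linarith) (by linarith)
        refine ⟨(1 + t') / 2, hmT 1 h1 t' ht', ?_⟩
        rw [pow_succ]
        have e : t - (1 + t') / 2 = (2 * t - 1 - t') / 2 := by ring
        rw [e, abs_div, abs_of_pos (by norm_num : (0 : ℝ) < 2)]
        linarith
  have hb1 : b ∈ T := by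
    rw [← hT.closure_eq, Metric.mem_closure_iff]
    intro ε hε
    obtain ⟨n, hn⟩ := exists_pow_lt_of_lt_one hε (by norm_num : (1 / 2 : ℝ) < 1)
    obtain ⟨t', ht', h'⟩ := key n b hb.le (by linarith)
    exact ⟨t', ht', by rw [Real.dist_eq]; exact h'.trans_lt hn⟩
  have e : a • x + b • y = x + b • (y - x) := by
    have : a = 1 - b := by linarith
    rw [this]
    module
  rw [e]
  exact hb1

/-- the dyadic averages -/
def DD (D : Set X) (s : ℕ) : Set X :=
  {x | ∃ v : ℕ → X, (∀ l < 2 ^ s, v l ∈ D) ∧ x = ((2 : ℝ) ^ s)⁻¹ • ∑ l ∈ range (2 ^ s), v l}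

theorem DD_mid (D : Set X) (s : ℕ) (x y : X) (hx : x ∈ DD D s) (hy : y ∈ DD D s) :
    (1 / 2 : ℝ) • (x + y) ∈ DD D (s + 1) := by
  obtain ⟨v, hv, rfl⟩ := hx
  obtain ⟨w, hw, rfl⟩ := hy
  refine ⟨fun l => if l < 2 ^ s then v l else w (l - 2 ^ s), ?_, ?_⟩
  · intro l hl
    rw [pow_succ] at hl
    by_cases h : l < 2 ^ s
    · simp only [if_pos h]
      exact hv l h
    · simp only [if_neg h]
      exact hw _ (by omega)
  · have e : 2 ^ (s + 1) = 2 ^ s + 2 ^ s := by rw [pow_succ]; ring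
    rw [e, sum_range_add]
    have e1 : ∑ l ∈ range (2 ^ s), (if l < 2 ^ s then v l else w (l - 2 ^ s)) =
        ∑ l ∈ range (2 ^ s), v l :=
      sum_congr rfl fun l hl => if_pos (mem_range.1 hl)
    have e2 : ∑ l ∈ range (2 ^ s), (if 2 ^ s + l < 2 ^ s then v (2 ^ s + l)
        else w (2 ^ s + l - 2 ^ s)) = ∑ l ∈ range (2 ^ s), w l :=
      sum_congr rfl fun l _ => by
        rw [if_neg (by omega), Nat.add_sub_cancel_left]
    rw [e1, e2, ← smul_add, smul_smul, pow_succ, mul_inv]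
    ring_nf

theorem DD_succ (D : Set X) (s : ℕ) : DD D s ⊆ DD D (s + 1) := by
  intro x hx
  have h := DD_mid D s x x hx hx
  have e : (1 / 2 : ℝ) • (x + x) = x := by module
  rwa [e] at h

theorem DD_mono (D : Set X) : Monotone (DD D) := monotone_nat_of_le_succ (DD_succ D)

end

theorem cvx : CvxStmt := by
  intro X _ _ NN δ hN u hu ι _ f η ε hη hε
  obtain ⟨hδ, -, -, -, hN5⟩ := hN
  let D : Set X := {v | v ∈ NN ∧ δ ≤ ‖v - u‖ ∧ ∀ i, |f i (v - u)| ≤ η}
  have h1 : u ∈ closure (convexHull ℝ D) := by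
    by_contra hcon
    obtain ⟨g, c, hg1, hg2⟩ := geometric_hahn_banach_point_closed
      (convex_convexHull ℝ D).closure isClosed_closure hcon
    let e := Fintype.equivFin ι
    obtain ⟨v, hv, hv1, hv2⟩ := hN5 u hu (Fintype.card ι + 1)
      (Fin.cons g fun i => f (e.symm i)) (min η (c - g u)) (lt_min hη (by linarith))
    have hvD : v ∈ D := by
      refine ⟨hv, hv2, fun i => ?_⟩
      have h := hv1 (Fin.succ (e i))
      rw [Fin.cons_succ, Equiv.symm_apply_apply] at h
      exact (h.trans_le (min_le_left _ _)).le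
    have h2 := hg2 v (subset_closure (subset_convexHull ℝ D hvD))
    have h3 := hv1 0
    rw [Fin.cons_zero, map_sub] at h3
    have h4 := (le_abs_self _).trans_lt (h3.trans_le (min_le_right _ _))
    linarith
  have h2 : closure (convexHull ℝ D) ⊆ closure (⋃ s, DD D s) := by
    refine closure_minimal (convexHull_min ?_ ?_) isClosed_closure
    · intro z hz
      refine subset_closure (Set.mem_iUnion.2 ⟨0, fun _ => z, fun _ _ => hz, ?_⟩)
      simp
    · refine convex_of_mid _ isClosed_closure ?_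
      intro x hx y hy
      have hc : Continuous fun p : X × X => (1 / 2 : ℝ) • (p.1 + p.2) := by fun_prop
      refine map_mem_closure₂ (f := fun x y : X => (1 / 2 : ℝ) • (x + y)) hc hx hy ?_
      intro x hx y hy
      obtain ⟨s, hs⟩ := Set.mem_iUnion.1 hx
      obtain ⟨t, ht⟩ := Set.mem_iUnion.1 hy
      exact Set.mem_iUnion.2 ⟨max s t + 1, DD_mid D _ x y (DD_mono D (le_max_left s t) hs)
        (DD_mono D (le_max_right s t) ht)⟩
  have h3 := h2 h1
  rw [Metric.mem_closure_iff] at h3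
  obtain ⟨x, hx, hxu⟩ := h3 ε hε
  obtain ⟨s, v, hv, rfl⟩ := Set.mem_iUnion.1 hx
  refine ⟨s, v, hv, ?_⟩
  rw [dist_comm, dist_eq_norm] at hxu
  exact hxu.le

end Pool.Agent.NA.H33
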